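import Pool.Agent.helper69.LN.Spec

/-!
# Project LN (MP_069684_lc), row SUB: substitution of constants and input bits in circuits
-/

set_option autoImplicit false

namespace Pool.Agent.LN

open Finset Pool.Agent.helper38.Neg Pool.Agent.helper55.NT

/-- Renaming of the wires read by a gate. -/
def SUB_map {w w' : ℕ} (ρ : Fin w → Fin w') : Gate w → Gate w'
  | Gate.const b => Gate.const b
  | Gate.and i j => Gate.and (ρ i) (ρ j)
  | Gate.or i j => Gate.or (ρ i) (ρ j)
  | Gate.not i => Gate.not (ρ i)

lemma SUB_map_eval {w w' : ℕ} (ρ : Fin w → Fin w') (g : Gate w) (v' : Fin w' → Bool)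
    (v : Fin w → Bool) (h : ∀ i, v' (ρ i) = v i) : (SUB_map ρ g).eval v' = g.eval v := by
  cases g <;> simp [SUB_map, Gate.eval, h]

lemma SUB_notVals {N n s t : ℕ} (C : Circuit N s) (C' : Circuit n t) (g : Gate (N + s))
    (ρ : Fin (N + s) → Fin (n + t)) (x : Fin n → Bool) (y : Fin N → Bool)
    (h1 : C'.notVals x = C.notVals y) (h2 : ∀ i, C'.val x (ρ i) = C.val y i) :
    (Circuit.snoc C' (SUB_map ρ g)).notVals x = (Circuit.snoc C g).notVals y := by
  cases g with
  | const b => exact h1
  | and i j => exact h1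
  | or i j => exact h1
  | not i =>
    change C'.notVals x ++ [!(C'.val x (ρ i))] = C.notVals y ++ [!(C.val y i)]
    rw [h1, h2]

/-- The two constant gates. -/
def SUB_base (n : ℕ) : Circuit n 2 :=
  Circuit.snoc (Circuit.snoc Circuit.nil (Gate.const false)) (Gate.const true)

lemma SUB_base_false (n : ℕ) (x : Fin n → Bool) :
    (SUB_base n).val x (Fin.castSucc (Fin.last (n + 0))) = false := by
  have h1 : (SUB_base n).val x (Fin.castSucc (Fin.last (n + 0))) =
      (Circuit.snoc (Circuit.nil : Circuit n 0) (Gate.const false)).val x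
        (Fin.last (n + 0)) := by
    change Fin.snoc (α := fun _ => Bool) _ _ (Fin.castSucc _) = _
    rw [Fin.snoc_castSucc]
  rw [h1]
  change Fin.snoc (α := fun _ => Bool) _ _ (Fin.last _) = _
  rw [Fin.snoc_last]
  rfl

lemma SUB_base_true (n : ℕ) (x : Fin n → Bool) :
    (SUB_base n).val x (Fin.last (n + 1)) = true := by
  change Fin.snoc (α := fun _ => Bool) _ _ (Fin.last _) = _
  rw [Fin.snoc_last]
  rfl

lemma SUB_base_var (n : ℕ) (x : Fin n → Bool) (i : Fin n) :
    (SUB_base n).val x (Fin.castSucc (Fin.castSucc i)) = x i := by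
  change Fin.snoc (α := fun _ => Bool) _ _ (Fin.castSucc _) = _
  rw [Fin.snoc_castSucc]
  change Fin.snoc (α := fun _ => Bool) _ _ (Fin.castSucc _) = _
  rw [Fin.snoc_castSucc]
  rfl

lemma SUB_key (N n : ℕ) (σ : Fin N → Fin n ⊕ Bool) : ∀ (s : ℕ) (C : Circuit N s),
    ∃ (C' : Circuit n (2 + s)) (ρ : Fin (N + s) → Fin (n + (2 + s))),
      (∀ x, C'.notVals x = C.notVals (sb σ x)) ∧
        ∀ w x, C'.val x (ρ w) = C.val (sb σ x) w := by
  intro s C
  induction C with
  | nil =>
    refine ⟨SUB_base n, fun w => match σ w with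
      | Sum.inl i => Fin.castSucc (Fin.castSucc i)
      | Sum.inr false => Fin.castSucc (Fin.last (n + 0))
      | Sum.inr true => Fin.last (n + 1), fun x => rfl, fun w x => ?_⟩
    change _ = sb σ x w
    unfold sb
    rcases h : σ w with i | b
    · simp only [h]
      exact SUB_base_var n x i
    · cases b with
      | false =>
        simp only [h]
        exact SUB_base_false n x
      | true =>
        simp only [h]
        exact SUB_base_true n x
  | @snoc s C g ih =>
    obtain ⟨C', ρ, h1, h2⟩ := ih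
    refine ⟨Circuit.snoc C' (SUB_map ρ g),
      Fin.snoc (α := fun _ => Fin (n + (2 + s) + 1)) (fun w => Fin.castSucc (ρ w))
        (Fin.last (n + (2 + s))), fun x => ?_, fun w x => ?_⟩
    · exact SUB_notVals C C' g ρ x (sb σ x) (h1 x) (fun i => h2 i x)
    · change Fin.snoc (α := fun _ => Bool) (C'.val x) ((SUB_map ρ g).eval (C'.val x)) _ =
        Fin.snoc (α := fun _ => Bool) (C.val (sb σ x)) (g.eval (C.val (sb σ x))) w
      have hw : ∀ w : Fin (N + s + 1), Fin.snoc (α := fun _ => Bool) (C'.val x)
          ((SUB_map ρ g).eval (C'.val x))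
          (Fin.snoc (α := fun _ => Fin (n + (2 + s) + 1)) (fun w => Fin.castSucc (ρ w))
            (Fin.last (n + (2 + s))) w) =
          Fin.snoc (α := fun _ => Bool) (C.val (sb σ x)) (g.eval (C.val (sb σ x))) w := by
        intro w
        refine Fin.lastCases (motive := fun w : Fin (N + s + 1) =>
          Fin.snoc (α := fun _ => Bool) (C'.val x)
          ((SUB_map ρ g).eval (C'.val x))
          (Fin.snoc (α := fun _ => Fin (n + (2 + s) + 1)) (fun w => Fin.castSucc (ρ w))
            (Fin.last (n + (2 + s))) w) =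
          Fin.snoc (α := fun _ => Bool) (C.val (sb σ x)) (g.eval (C.val (sb σ x))) w)
          ?_ (fun w => ?_) w
        · rw [Fin.snoc_last, Fin.snoc_last, Fin.snoc_last]
          exact SUB_map_eval ρ g _ _ (fun i => h2 i x)
        · rw [Fin.snoc_castSucc, Fin.snoc_castSucc, Fin.snoc_castSucc]
          exact h2 w x
      exact hw w

theorem SUB : SUB_stmt := by
  intro N n s σ C
  obtain ⟨C', ρ, h1, h2⟩ := SUB_key N n σ s C
  exact ⟨C', h1, fun o => ⟨ρ o, fun x => h2 o x⟩⟩

end Pool.Agent.LN
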