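import Pool.Agent.helper69.LN.TSpec

/-!
# Project LN (MP_069684_lc), row TTR: translation of a straight line computation on doubled inputs
-/

set_option autoImplicit false

namespace Pool.Agent.LN

open Finset Pool.Agent.helper38.Neg Pool.Agent.helper55.NT

/-- The negated inputs. -/
lemma TTR_base (n u : ℕ) : ∀ k ≤ n, ∃ B : List (Fn n), SX u B 0 ∧ B.length ≤ k + 1 ∧
    Op B (fun _ => false) ∧
    ∀ i : Fin n, (i : ℕ) < k → Op B fun z => if (i : ℕ) < u then false else !(z i) := by
  intro k
  induction k with
  | zero =>
    intro _
    refine ⟨[fun _ => false], SX.const false SX.nil, by simp, Or.inl (by simp), ?_⟩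
    intro i hi
    exact absurd hi (Nat.not_lt_zero _)
  | succ k ih =>
    intro hk
    obtain ⟨B, hB, hl, hc, hn⟩ := ih (by omega)
    by_cases hu : k < u
    · refine ⟨B, hB, by omega, hc, ?_⟩
      intro i hi
      rcases Nat.lt_succ_iff_lt_or_eq.1 hi with h | h
      · exact hn i h
      · have : (fun z : Fin n → Bool => if (i : ℕ) < u then false else !(z i)) = fun _ => false := by
          funext z
          rw [if_pos (by omega)]
        rw [this]
        exact hc
    · let j : Fin n := ⟨k, by omega⟩
      refine ⟨(fun y => !(y j)) :: B,
        SX.not0 (f := fun y => y j) hB (Or.inr ⟨j, rfl⟩) (fun x y h => h j (by simp only [j]; omega)),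
        by simp only [List.length_cons]; omega,
        hc.mono fun _ h => List.mem_cons_of_mem _ h, ?_⟩
      intro i hi
      rcases Nat.lt_succ_iff_lt_or_eq.1 hi with h | h
      · exact (hn i h).mono fun _ h => List.mem_cons_of_mem _ h
      · have hij : i = j := Fin.ext h
        have : (fun z : Fin n → Bool => if (i : ℕ) < u then false else !(z i)) =
            fun y => !(y j) := by
          funext z
          rw [if_neg (by omega), hij]
        rw [this]
        exact Or.inl List.mem_cons_self

theorem TTR : TTR_stmt := by
  intro n u q L hL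
  obtain ⟨B, hB, hl, hc, hn⟩ := TTR_base n u n le_rfl
  have hin : ∀ i : Fin (n + n), Op B fun z => io u z i := by
    intro i
    refine Fin.addCases (fun j => ?_) (fun j => ?_) i
    · refine Or.inr ⟨j, ?_⟩
      funext z
      simp [io]
    · have : (fun z : Fin n → Bool => io u z (Fin.natAdd n j)) =
          fun z => if (j : ℕ) < u then false else !(z j) := by
        funext z
        simp only [io, Fin.append_right]
      rw [this]
      exact hn j j.2
  suffices h : ∀ (L : List (Fn (n + n))) (q : ℕ), SL L q →
      SX u (L.map (fun f => fun z => f (io u z)) ++ B) q by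
    refine ⟨_, h L q hL, ?_, ?_⟩
    · simp only [List.length_append, List.length_map]; omega
    · intro f hf
      rcases hf with hf | ⟨i, rfl⟩
      · exact Or.inl (List.mem_append_left _ (List.mem_map.2 ⟨f, hf, rfl⟩))
      · exact (hin i).mono fun _ h => List.mem_append_right _ h
  intro L q hL
  have hop : ∀ (L : List (Fn (n + n))) (f : Fn (n + n)), Op L f →
      Op (L.map (fun f => fun z => f (io u z)) ++ B) fun z => f (io u z) := by
    intro L f hf
    rcases hf with hf | ⟨i, rfl⟩
    · exact Or.inl (List.mem_append_left _ (List.mem_map.2 ⟨f, hf, rfl⟩))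
    · exact (hin i).mono fun _ h => List.mem_append_right _ h
  induction hL with
  | nil => simpa using hB
  | const b _ ih => exact SX.const b ih
  | and _ hu hv ih => exact SX.and ih (hop _ _ hu) (hop _ _ hv)
  | or _ hu hv ih => exact SX.or ih (hop _ _ hu) (hop _ _ hv)
  | not _ hu ih => exact SX.not1 ih (hop _ _ hu)

end Pool.Agent.LN
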